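import Mathlib

/-!
Flag complexes, pseudomanifolds, face numbers, joins and cycles, for finite abstract simplicial
complexes.
-/

set_option autoImplicit false

namespace Pool.Agent.H68Z.Flag

open Finset

/-- `f_i(K)`: the number of `i`-dimensional faces (faces with `i + 1` vertices). -/
noncomputable def fnum {V : Type} (K : AbstractSimplicialComplex V) (i : ℕ) : ℕ :=
  {F ∈ K.faces | F.card = i + 1}.ncard

/-- Every nonempty set of vertices that are pairwise joined by edges is a face. -/
def IsFlag {V : Type} [DecidableEq V] (K : AbstractSimplicialComplex V) : Prop :=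
  ∀ F : Finset V, F.Nonempty → (∀ a ∈ F, ∀ b ∈ F, a ≠ b → {a, b} ∈ K.faces) → F ∈ K.faces

/-- `K` is a `d`-dimensional pseudomanifold: every face lies in a face with `d + 1` vertices (pure
of dimension `d`), and every face with `d` vertices lies in exactly two faces with `d + 1`
vertices. -/
def IsPseudomanifold {V : Type} (d : ℕ) (K : AbstractSimplicialComplex V) : Prop :=
  (∀ F ∈ K.faces, ∃ G ∈ K.faces, F ⊆ G ∧ G.card = d + 1) ∧
  ∀ R ∈ K.faces, R.card = d → {G ∈ K.faces | R ⊆ G ∧ G.card = d + 1}.ncard = 2

/-- The part of a set of vertices of a disjoint union that lies in the `j`-th summand. -/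
noncomputable def slice {J : Type} {V : J → Type} (F : Finset (Σ j, V j)) (j : J) :
    Finset (V j) :=
  F.preimage (Sigma.mk j) sigma_mk_injective.injOn

theorem mem_slice {J : Type} {V : J → Type} {F : Finset (Σ j, V j)} {j : J} {x : V j} :
    x ∈ slice F j ↔ (⟨j, x⟩ : Σ j, V j) ∈ F := by
  simp [slice]

/-- The join of a family of complexes: the vertex set is the disjoint union, and a nonempty set is
a face when each of its parts is empty or a face. -/
def join {J : Type} {V : J → Type} (K : ∀ j, AbstractSimplicialComplex (V j)) :
    AbstractSimplicialComplex (Σ j, V j) where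
  faces := {F | F.Nonempty ∧ ∀ j, slice F j = ∅ ∨ slice F j ∈ (K j).faces}
  isRelLowerSet_faces := by
    intro F hF
    refine ⟨hF.1, fun G hGF hG => ⟨hG, fun j => ?_⟩⟩
    have hs : slice G j ⊆ slice F j := fun x hx => mem_slice.2 (hGF (mem_slice.1 hx))
    rcases (slice G j).eq_empty_or_nonempty with h | h
    · exact Or.inl h
    · rcases hF.2 j with h' | h'
      · left; exact Finset.subset_empty.1 (h' ▸ hs)
      · right; exact ((K j).isRelLowerSet_faces h').2 hs h
  singleton_mem := by
    rintro ⟨i, v⟩
    refine ⟨Finset.singleton_nonempty _, fun j => ?_⟩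
    rcases (slice ({⟨i, v⟩} : Finset (Σ j, V j)) j).eq_empty_or_nonempty with h | ⟨x, hx⟩
    · exact Or.inl h
    · right
      have : slice ({⟨i, v⟩} : Finset (Σ j, V j)) j = {x} := by
        ext y
        rw [mem_slice, Finset.mem_singleton] at hx
        rw [mem_slice, Finset.mem_singleton, Finset.mem_singleton, ← hx]
        exact sigma_mk_injective.eq_iff
      rw [this]
      exact (K j).singleton_mem x

/-- The cycle on the vertices `0, …, k - 1`: faces are the vertices and the edges
`{a, a + 1 mod k}`. -/
def cycle (k : ℕ) : AbstractSimplicialComplex (Fin k) where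
  faces := {F | ∃ a b : Fin k, (b = a ∨ b.val = (a.val + 1) % k) ∧ F = {a, b}}
  isRelLowerSet_faces := by
    rintro F ⟨a, b, hab, rfl⟩
    refine ⟨by simp, fun G hG hne => ?_⟩
    by_cases ha : a ∈ G
    · by_cases hb : b ∈ G
      · exact ⟨a, b, hab, Finset.Subset.antisymm hG (by
          intro x hx
          simp only [Finset.mem_insert, Finset.mem_singleton] at hx
          rcases hx with rfl | rfl <;> assumption)⟩
      · refine ⟨a, a, Or.inl rfl, ?_⟩
        ext x
        constructor
        · intro hx
          have := hG hx
          simp only [Finset.mem_insert, Finset.mem_singleton] at this ⊢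
          rcases this with rfl | rfl
          · exact Or.inl rfl
          · exact absurd hx hb
        · intro hx
          simp only [Finset.mem_insert, Finset.mem_singleton, or_self] at hx
          exact hx ▸ ha
    · obtain ⟨y, hy⟩ := hne
      have hyb : y = b := by
        have := hG hy
        simp only [Finset.mem_insert, Finset.mem_singleton] at this
        rcases this with rfl | rfl
        · exact absurd hy ha
        · rfl
      refine ⟨b, b, Or.inl rfl, ?_⟩
      ext x
      constructor
      · intro hx
        have := hG hx
        simp only [Finset.mem_insert, Finset.mem_singleton] at this ⊢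
        rcases this with rfl | rfl
        · exact absurd hx ha
        · exact Or.inl rfl
      · intro hx
        simp only [Finset.mem_insert, Finset.mem_singleton, or_self] at hx
        exact hx ▸ hyb ▸ hy
  singleton_mem v := ⟨v, v, Or.inl rfl, by simp⟩

/-- `J_m(n)`: the join of `m` cycles, the `j`-th of length `⌊(n + j) / m⌋` for `0 ≤ j < m`; these
lengths are `⌊n / m⌋` or `⌈n / m⌉` and add up to `n`. -/
def Jm (m n : ℕ) : AbstractSimplicialComplex (Σ j : Fin m, Fin ((n + j.val) / m)) :=
  join fun j : Fin m => cycle ((n + j.val) / m)

end Pool.Agent.H68Z.Flag
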