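import Pool.Agent.H68Z.Flag.Defs

set_option autoImplicit false

namespace Pool.Agent.H68Z.Flag

open Finset

variable {J : Type} [Fintype J] {V : J → Type}

theorem sigma_slice (F : Finset (Σ j, V j)) : univ.sigma (slice F) = F := by
  ext ⟨j, x⟩
  simp [mem_slice]

theorem slice_sigma (G : ∀ j, Finset (V j)) (j : J) : slice (univ.sigma G) j = G j := by
  ext x
  simp [mem_slice]

theorem card_eq_sum (F : Finset (Σ j, V j)) : F.card = ∑ j, (slice F j).card := by
  conv_lhs => rw [← sigma_slice F]
  rw [Finset.card_sigma]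

omit [Fintype J] in
theorem slice_mono {F G : Finset (Σ j, V j)} (h : F ⊆ G) (j : J) : slice F j ⊆ slice G j :=
  fun _ hx => mem_slice.2 (h (mem_slice.1 hx))

omit [Fintype J] in
theorem join_flag [DecidableEq J] [∀ j, DecidableEq (V j)]
    (K : ∀ j, AbstractSimplicialComplex (V j)) (h : ∀ j, IsFlag (K j)) : IsFlag (join K) := by
  intro F hF hp
  refine ⟨hF, fun j => ?_⟩
  rcases (slice F j).eq_empty_or_nonempty with h0 | h0
  · exact Or.inl h0
  · right
    refine h j _ h0 fun a ha b hb hab => ?_
    have := (hp ⟨j, a⟩ (mem_slice.1 ha) ⟨j, b⟩ (mem_slice.1 hb)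
      (fun e => hab (sigma_mk_injective e))).2 j
    have e : slice ({⟨j, a⟩, ⟨j, b⟩} : Finset (Σ j, V j)) j = {a, b} := by
      ext y
      simp [mem_slice]
    rw [e] at this
    rcases this with h1 | h1
    · exact absurd h1 (by simp)
    · exact h1

theorem card_le_of_pseudo {W : Type} {d : ℕ} {K : AbstractSimplicialComplex W}
    (h : IsPseudomanifold d K) {F : Finset W} (hF : F = ∅ ∨ F ∈ K.faces) : F.card ≤ d + 1 := by
  rcases hF with rfl | hF
  · simp
  · obtain ⟨G, -, hFG, hG⟩ := h.1 F hF
    exact hG ▸ Finset.card_le_card hFG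

theorem slices_top (K : ∀ j, AbstractSimplicialComplex (V j)) (d : J → ℕ)
    (h : ∀ j, IsPseudomanifold (d j) (K j)) {G : Finset (Σ j, V j)} (hG : G ∈ (join K).faces)
    (hc : G.card = ∑ j, (d j + 1)) (j : J) :
    slice G j ∈ (K j).faces ∧ (slice G j).card = d j + 1 := by
  have hle : ∀ j ∈ (univ : Finset J), (slice G j).card ≤ d j + 1 :=
    fun j _ => card_le_of_pseudo (h j) (hG.2 j)
  rw [card_eq_sum] at hc
  have := (Finset.sum_eq_sum_iff_of_le hle).1 hc j (mem_univ j)
  refine ⟨?_, this⟩
  rcases hG.2 j with h0 | h0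
  · rw [h0] at this; simp at this
  · exact h0

theorem sigma_mem [Nonempty J] (K : ∀ j, AbstractSimplicialComplex (V j)) (d : J → ℕ)
    (G : ∀ j, Finset (V j)) (hG : ∀ j, G j ∈ (K j).faces ∧ (G j).card = d j + 1) :
    univ.sigma G ∈ (join K).faces ∧ (univ.sigma G).card = ∑ j, (d j + 1) := by
  refine ⟨⟨?_, fun j => Or.inr (by rw [slice_sigma]; exact (hG j).1)⟩, ?_⟩
  · obtain ⟨j⟩ := ‹Nonempty J›
    obtain ⟨x, hx⟩ : (G j).Nonempty := by rw [← Finset.card_pos, (hG j).2]; omega
    exact ⟨⟨j, x⟩, by simp [hx]⟩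
  · rw [Finset.card_sigma]
    exact Finset.sum_congr rfl fun j _ => (hG j).2

theorem join_fnum [Nonempty J] (K : ∀ j, AbstractSimplicialComplex (V j)) (d : J → ℕ)
    (h : ∀ j, IsPseudomanifold (d j) (K j)) (D : ℕ) (hD : D + 1 = ∑ j, (d j + 1)) :
    fnum (join K) D = ∏ j, fnum (K j) (d j) := by
  unfold fnum
  simp only [← Nat.card_coe_set_eq]
  rw [← Nat.card_pi]
  refine Nat.card_congr
    { toFun := fun F j => ⟨slice F.1 j, slices_top K d h F.2.1 (F.2.2.trans hD) j⟩
      invFun := fun G => ⟨univ.sigma fun j => (G j).1,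
        (sigma_mem K d _ fun j => (G j).2).1, by rw [(sigma_mem K d _ fun j => (G j).2).2, hD]⟩
      left_inv := fun F => Subtype.ext (sigma_slice F.1)
      right_inv := fun G => funext fun j => Subtype.ext (slice_sigma _ j) }

theorem join_pseudo [Nonempty J] [∀ j, Nonempty (V j)]
    (K : ∀ j, AbstractSimplicialComplex (V j)) (d : J → ℕ) (hd : ∀ j, 1 ≤ d j)
    (h : ∀ j, IsPseudomanifold (d j) (K j)) (D : ℕ) (hD : D + 1 = ∑ j, (d j + 1)) :
    IsPseudomanifold D (join K) := by
  classical
  constructor
  · intro F hF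
    have : ∀ j, ∃ G, (G ∈ (K j).faces ∧ G.card = d j + 1) ∧ slice F j ⊆ G := by
      intro j
      rcases hF.2 j with h0 | h0
      · obtain ⟨v⟩ := (inferInstance : Nonempty (V j))
        obtain ⟨G, h1, -, h2⟩ := (h j).1 _ ((K j).singleton_mem v)
        exact ⟨G, ⟨h1, h2⟩, by simp [h0]⟩
      · obtain ⟨G, h1, h3, h2⟩ := (h j).1 _ h0
        exact ⟨G, ⟨h1, h2⟩, h3⟩
    choose G hG hFG using this
    refine ⟨univ.sigma G, (sigma_mem K d G hG).1, ?_, by rw [(sigma_mem K d G hG).2, hD]⟩
    rintro ⟨j, x⟩ hx
    simpa using hFG j (mem_slice.2 hx)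
  · intro R hR hc
    have hle : ∀ j, (slice R j).card ≤ d j + 1 := fun j => card_le_of_pseudo (h j) (hR.2 j)
    have hsum : ∑ j, (d j + 1 - (slice R j).card) = 1 := by
      have : ∑ j, (d j + 1 - (slice R j).card) + ∑ j, (slice R j).card = ∑ j, (d j + 1) := by
        rw [← Finset.sum_add_distrib]
        exact Finset.sum_congr rfl fun j _ => Nat.sub_add_cancel (hle j)
      rw [← card_eq_sum, hc] at this
      omega
    obtain ⟨i, hi⟩ : ∃ i, d i + 1 - (slice R i).card ≠ 0 := by
      by_contra hcon
      push Not at hcon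
      simp [hcon] at hsum
    have hsplit := Finset.add_sum_erase univ (fun j => d j + 1 - (slice R j).card) (mem_univ i)
    rw [hsum] at hsplit
    have hi1 : (slice R i).card = d i := by
      have := hle i
      omega
    have hrest : ∀ j, j ≠ i → (slice R j).card = d j + 1 := by
      intro j hj
      have h0 : ∑ j ∈ univ.erase i, (d j + 1 - (slice R j).card) = 0 := by
        omega
      have := (Finset.sum_eq_zero_iff.1 h0) j (by simp [hj])
      have := hle j
      omega
    have hmem : ∀ j, slice R j ∈ (K j).faces := by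
      intro j
      rcases hR.2 j with h0 | h0
      · exfalso
        by_cases hj : j = i
        · subst hj
          rw [h0] at hi1
          have := hd j
          simp at hi1
          omega
        · have := hrest j hj
          rw [h0] at this
          simp at this
      · exact h0
    rw [← (h i).2 _ (hmem i) hi1]
    refine Set.ncard_congr (fun G _ => slice G i) ?_ ?_ ?_
    · rintro G ⟨h1, h2, h3⟩
      have := slices_top K d h h1 (h3.trans hD) i
      exact ⟨this.1, slice_mono h2 i, this.2⟩
    · rintro G G' ⟨h1, h2, h3⟩ ⟨h1', h2', h3'⟩ e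
      rw [← sigma_slice G, ← sigma_slice G']
      congr 1
      funext j
      by_cases hj : j = i
      · subst hj; exact e
      · have a1 := (slices_top K d h h1 (h3.trans hD) j).2
        have a2 := (slices_top K d h h1' (h3'.trans hD) j).2
        have b1 := Finset.eq_of_subset_of_card_le (slice_mono h2 j) (by rw [a1, hrest j hj])
        have b2 := Finset.eq_of_subset_of_card_le (slice_mono h2' j) (by rw [a2, hrest j hj])
        rw [← b1, ← b2]
    · rintro H ⟨h1, h2, h3⟩
      have hG : ∀ j, Function.update (slice R) i H j ∈ (K j).faces ∧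
          (Function.update (slice R) i H j).card = d j + 1 := by
        intro j
        by_cases hj : j = i
        · subst hj; simp [h1, h3]
        · simp [hj, hmem j, hrest j hj]
      refine ⟨univ.sigma (Function.update (slice R) i H),
        ⟨(sigma_mem K d _ hG).1, ?_, by rw [(sigma_mem K d _ hG).2, hD]⟩, ?_⟩
      · rintro ⟨j, x⟩ hx
        by_cases hj : j = i
        · subst hj; simpa using h2 (mem_slice.2 hx)
        · simpa [hj] using mem_slice.2 hx
      · simp [slice_sigma]

end Pool.Agent.H68Z.Flag
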