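import Pool.Agent.H68Z.Flag.Join

set_option autoImplicit false

namespace Pool.Agent.H68Z.Flag

open Finset

/-- The clique complex of a symmetric relation. -/
def clq {V : Type} (r : V → V → Bool) : AbstractSimplicialComplex V where
  faces := {F | F.Nonempty ∧ ∀ a ∈ F, ∀ b ∈ F, a ≠ b → r a b = true}
  isRelLowerSet_faces := fun _ hF =>
    ⟨hF.1, fun _ hGF hG => ⟨hG, fun a ha b hb => hF.2 a (hGF ha) b (hGF hb)⟩⟩
  singleton_mem v := ⟨Finset.singleton_nonempty v, by simp⟩

theorem clq_flag {V : Type} [DecidableEq V] (r : V → V → Bool) : IsFlag (clq r) :=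
  fun _ hF hp => ⟨hF, fun a ha b hb hab => (hp a ha b hb hab).2 a (by simp) b (by simp) hab⟩

/-- A decidable form of being a clique. -/
abbrev Cl {k : ℕ} (r : Fin k → Fin k → Bool) (F : Finset (Fin k)) : Prop :=
  ∀ a ∈ F, ∀ b ∈ F, a ≠ b → r a b = true

theorem clq_fnum {k : ℕ} (r : Fin k → Fin k → Bool) (d : ℕ) :
    fnum (clq r) d = ((powersetCard (d + 1) univ).filter (Cl r)).card := by
  unfold fnum
  rw [← Set.ncard_coe_finset]
  congr 1
  ext F
  simp only [clq, Set.mem_ofPred_eq, coe_filter, mem_powersetCard, subset_univ, true_and]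
  constructor
  · rintro ⟨⟨-, h⟩, h2⟩; exact ⟨h2, h⟩
  · rintro ⟨h2, h⟩; exact ⟨⟨by rw [← Finset.card_pos, h2]; omega, h⟩, h2⟩

theorem clq_pseudo {k : ℕ} (r : Fin k → Fin k → Bool) (d : ℕ) (T : Finset (Finset (Fin k)))
    (hT : (powersetCard (d + 1) univ).filter (Cl r) = T)
    (h0 : ∀ F ∈ powersetCard (d + 2) univ, ¬ Cl r F)
    (h1 : ∀ i ∈ range (d + 1), ∀ F ∈ powersetCard i univ, Cl r F → ∃ G ∈ T, F ⊆ G)
    (h2 : ∀ F ∈ powersetCard d univ, Cl r F → (T.filter (F ⊆ ·)).card = 2) :
    IsPseudomanifold d (clq r) := by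
  have hTm : ∀ G, G ∈ T ↔ G ∈ (clq r).faces ∧ G.card = d + 1 := by
    intro G
    rw [← hT]
    simp only [clq, Set.mem_ofPred_eq, mem_filter, mem_powersetCard, subset_univ, true_and]
    constructor
    · rintro ⟨h2, h⟩; exact ⟨⟨by rw [← Finset.card_pos, h2]; omega, h⟩, h2⟩
    · rintro ⟨⟨-, h⟩, h2⟩; exact ⟨h2, h⟩
  constructor
  · intro F hF
    rcases lt_trichotomy F.card (d + 1) with hc | hc | hc
    · obtain ⟨G, hG, hFG⟩ := h1 F.card (mem_range.2 hc) F (by simp) hF.2
      exact ⟨G, ((hTm G).1 hG).1, hFG, ((hTm G).1 hG).2⟩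
    · exact ⟨F, hF, Subset.refl _, hc⟩
    · obtain ⟨G, hGF, hG⟩ := Finset.exists_subset_card_eq (s := F) (n := d + 2) hc
      exact absurd (fun a ha b hb => hF.2 a (hGF ha) b (hGF hb)) (h0 G (by simp [hG]))
  · intro R hR hc
    rw [← h2 R (by simp [hc]) hR.2, ← Set.ncard_coe_finset]
    congr 1
    ext G
    simp only [Set.mem_ofPred_eq, coe_filter, hTm]
    tauto

/-- Adjacency in the 8-cycle. -/
def r8 (a b : Fin 8) : Bool := b.val == (a.val + 1) % 8 || a.val == (b.val + 1) % 8

theorem r8_no3 : ∀ F ∈ powersetCard 3 (univ : Finset (Fin 8)), ¬ Cl r8 F := by decide +kernel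

theorem cycle8 : cycle 8 = clq r8 := by
  ext F
  constructor
  · rintro ⟨a, b, hab, rfl⟩
    refine ⟨by simp, ?_⟩
    revert a b
    decide +kernel
  · rintro ⟨hne, hF⟩
    have hc : F.card ≤ 2 := by
      by_contra hc
      obtain ⟨G, hGF, hG⟩ := Finset.exists_subset_card_eq (s := F) (n := 3) (by omega)
      exact r8_no3 G (by simp [hG]) (fun a ha b hb => hF a (hGF ha) b (hGF hb))
    have hp := Finset.card_pos.2 hne
    rcases (by omega : F.card = 1 ∨ F.card = 2) with h | h
    · obtain ⟨a, rfl⟩ := Finset.card_eq_one.1 h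
      exact ⟨a, a, Or.inl rfl, by simp⟩
    · obtain ⟨a, b, hab, rfl⟩ := Finset.card_eq_two.1 h
      have := hF a (by simp) b (by simp) hab
      simp only [r8, Bool.or_eq_true, beq_iff_eq] at this
      rcases this with h1 | h1
      · exact ⟨a, b, Or.inr h1, rfl⟩
      · exact ⟨b, a, Or.inr h1, Finset.pair_comm a b⟩

theorem cycle8_flag : IsFlag (cycle 8) := cycle8 ▸ clq_flag r8

theorem cycle8_pseudo : IsPseudomanifold 1 (cycle 8) := by
  rw [cycle8]
  exact clq_pseudo r8 1 _ rfl r8_no3 (by decide +kernel) (by decide +kernel)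

theorem cycle8_fnum : fnum (cycle 8) 1 = 8 := by
  rw [cycle8, clq_fnum]
  decide +kernel

/-- Adjacency in the 12-vertex flag torus, a Cayley graph of `ℤ/2 × ℤ/6`. -/
def r12 (a b : Fin 12) : Bool :=
  if a.val / 6 == b.val / 6 then
    ((a.val + 6 - b.val % 6) % 6 == 1 || (a.val + 6 - b.val % 6) % 6 == 5)
  else ((a.val + 6 - b.val % 6) % 3 != 0)

theorem clq_pseudo2 {V : Type} [DecidableEq V] (r : V → V → Bool)
    (hs : ∀ a b, r a b = true → r b a = true) (hi : ∀ a, r a a = false)
    (h4 : ∀ a b, r a b = true → ∀ c, r a c = true → r b c = true →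
      ∀ d, r a d = true → r b d = true → r c d = true → False)
    (h1 : ∀ a, ∃ b, r a b = true)
    (h2 : ∀ a b, r a b = true → ∃ x y, x ≠ y ∧
      ∀ z, (r a z = true ∧ r b z = true) ↔ (z = x ∨ z = y)) :
    IsPseudomanifold 2 (clq r) := by
  have hne : ∀ a b, r a b = true → a ≠ b := by
    rintro a b h rfl
    rw [hi] at h
    exact absurd h (by simp)
  have tri : ∀ a b c, r a b = true → r a c = true → r b c = true →
      ({a, b, c} : Finset V) ∈ (clq r).faces ∧ ({a, b, c} : Finset V).card = 3 := by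
    intro a b c hab hac hbc
    refine ⟨⟨by simp, ?_⟩, Finset.card_eq_three.2 ⟨a, b, c, hne _ _ hab, hne _ _ hac,
      hne _ _ hbc, rfl⟩⟩
    have := hs _ _ hab
    have := hs _ _ hac
    have := hs _ _ hbc
    intro x hx y hy hxy
    simp only [mem_insert, mem_singleton] at hx hy
    rcases hx with rfl | rfl | rfl <;> rcases hy with rfl | rfl | rfl <;>
      first | assumption | exact absurd rfl hxy
  constructor
  · intro F hF
    have hp := Finset.card_pos.2 hF.1
    rcases (by omega : F.card = 1 ∨ F.card = 2 ∨ F.card = 3 ∨ 4 ≤ F.card) with h | h | h | h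
    · obtain ⟨a, rfl⟩ := Finset.card_eq_one.1 h
      obtain ⟨b, hab⟩ := h1 a
      obtain ⟨x, y, -, hz⟩ := h2 a b hab
      have := (hz x).2 (Or.inl rfl)
      exact ⟨_, (tri a b x hab this.1 this.2).1, by simp, (tri a b x hab this.1 this.2).2⟩
    · obtain ⟨a, b, hab', rfl⟩ := Finset.card_eq_two.1 h
      have hab := hF.2 a (by simp) b (by simp) hab'
      obtain ⟨x, y, -, hz⟩ := h2 a b hab
      have := (hz x).2 (Or.inl rfl)
      exact ⟨_, (tri a b x hab this.1 this.2).1, by intro t; simp; tauto,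
        (tri a b x hab this.1 this.2).2⟩
    · exact ⟨F, hF, Subset.refl _, h⟩
    · exfalso
      obtain ⟨G, hGF, hG⟩ := Finset.exists_subset_card_eq (s := F) (n := 4) h
      have h : ∀ a ∈ G, ∀ b ∈ G, a ≠ b → r a b = true :=
        fun a ha b hb => hF.2 a (hGF ha) b (hGF hb)
      obtain ⟨a, G', haG, rfl, hG'⟩ := Finset.card_eq_succ.1 hG
      obtain ⟨b, c, d, hbc, hbd, hcd, rfl⟩ := Finset.card_eq_three.1 hG'
      simp only [mem_insert, mem_singleton, not_or] at haG
      exact h4 a b (h a (by simp) b (by simp) haG.1) c (h a (by simp) c (by simp) haG.2.1)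
        (h b (by simp) c (by simp) hbc) d (h a (by simp) d (by simp) haG.2.2)
        (h b (by simp) d (by simp) hbd) (h c (by simp) d (by simp) hcd)
  · intro R hR hc
    obtain ⟨a, b, hab', rfl⟩ := Finset.card_eq_two.1 hc
    have hab := hR.2 a (by simp) b (by simp) hab'
    obtain ⟨x, y, hxy, hz⟩ := h2 a b hab
    have hx := (hz x).2 (Or.inl rfl)
    have hy := (hz y).2 (Or.inr rfl)
    refine Set.ncard_eq_two.2 ⟨{a, b, x}, {a, b, y}, ?_, ?_⟩
    · intro e
      have : x ∈ ({a, b, y} : Finset V) := e ▸ by simp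
      simp only [mem_insert, mem_singleton] at this
      rcases this with h | h | h
      · exact hne _ _ hx.1 h.symm
      · exact hne _ _ hx.2 h.symm
      · exact hxy h
    · ext G
      simp only [Set.mem_ofPred_eq, Set.mem_insert_iff, Set.mem_singleton_iff]
      constructor
      · rintro ⟨hG, hsub, hcard⟩
        obtain ⟨z, hzG, hzR⟩ := Finset.exists_mem_notMem_of_card_lt_card
          (s := ({a, b} : Finset V)) (t := G) (by omega)
        have hz' := hzR
        simp only [mem_insert, mem_singleton, not_or] at hz'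
        have h1 := hG.2 a (hsub (by simp)) z hzG (Ne.symm hz'.1)
        have h2 := hG.2 b (hsub (by simp)) z hzG (Ne.symm hz'.2)
        have e : G = {a, b, z} := by
          symm
          refine Finset.eq_of_subset_of_card_le ?_ (by rw [(tri a b z hab h1 h2).2, hcard])
          intro t ht
          simp only [mem_insert, mem_singleton] at ht
          rcases ht with rfl | rfl | rfl
          · exact hsub (by simp)
          · exact hsub (by simp)
          · exact hzG
        rcases (hz z).1 ⟨h1, h2⟩ with rfl | rfl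
        · exact Or.inl e
        · exact Or.inr e
      · rintro (rfl | rfl)
        · exact ⟨(tri a b x hab hx.1 hx.2).1, by intro t; simp; tauto, (tri a b x hab hx.1 hx.2).2⟩
        · exact ⟨(tri a b y hab hy.1 hy.2).1, by intro t; simp; tauto, (tri a b y hab hy.1 hy.2).2⟩

theorem r12_symm : ∀ a b, r12 a b = true → r12 b a = true := by decide +kernel

theorem torus_pseudo : IsPseudomanifold 2 (clq r12) :=
  clq_pseudo2 r12 r12_symm (by decide +kernel) (by decide +kernel) (by decide +kernel)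
    (by decide +kernel)

theorem torus_fnum : 24 ≤ fnum (clq r12) 2 := by
  have hS : ((univ : Finset (Fin 12 × Fin 12 × Fin 12)).filter fun p =>
      p.1 < p.2.1 ∧ p.2.1 < p.2.2 ∧ r12 p.1 p.2.1 = true ∧ r12 p.1 p.2.2 = true ∧
        r12 p.2.1 p.2.2 = true).card = 24 := by decide +kernel
  rw [← hS, ← Set.ncard_coe_finset]
  refine Set.ncard_le_ncard_of_injOn (fun p => ({p.1, p.2.1, p.2.2} : Finset (Fin 12))) ?_ ?_
    (Set.toFinite _)
  · rintro ⟨a, b, c⟩ hp
    simp only [coe_filter, mem_univ, true_and, Set.mem_ofPred_eq] at hp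
    obtain ⟨h1, h2, hab, hac, hbc⟩ := hp
    refine ⟨⟨by simp, ?_⟩, Finset.card_eq_three.2 ⟨a, b, c, h1.ne, (h1.trans h2).ne, h2.ne, rfl⟩⟩
    have := r12_symm _ _ hab
    have := r12_symm _ _ hac
    have := r12_symm _ _ hbc
    intro x hx y hy hxy
    simp only [mem_insert, mem_singleton] at hx hy
    rcases hx with rfl | rfl | rfl <;> rcases hy with rfl | rfl | rfl <;>
      first | assumption | exact absurd rfl hxy
  · rintro ⟨a, b, c⟩ hp ⟨a', b', c'⟩ hq e
    simp only [coe_filter, mem_univ, true_and, Set.mem_ofPred_eq] at hp hq e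
    obtain ⟨h1, h2, -⟩ := hp
    obtain ⟨h1', h2', -⟩ := hq
    have m1 : a ∈ ({a', b', c'} : Finset (Fin 12)) := e ▸ by simp
    have m2 : b ∈ ({a', b', c'} : Finset (Fin 12)) := e ▸ by simp
    have m3 : c ∈ ({a', b', c'} : Finset (Fin 12)) := e ▸ by simp
    simp only [mem_insert, mem_singleton] at m1 m2 m3
    simp only [Prod.mk.injEq]
    omega

end Pool.Agent.H68Z.Flag
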